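import Pool.Agent.Q82.TQ.Adj

/-!
# Fibrations of torus quotients given by invariant subspaces spanned by lattice vectors
-/

set_option autoImplicit false

namespace Pool.Agent.Q123.MF

open Pool.Agent.W594.SYZ2 Pool.Agent.W594.SYZ2.TQ Pool.Agent.TH735.AQ

variable {V W : Type*} [NormedAddCommGroup V] [NormedSpace ℂ V] [NormedAddCommGroup W]
  [NormedSpace ℂ W] {Γ : Subgroup (V ≃ᵃ[ℂ] V)}

/-- The translations of the base come, up to a multiple, from translations. -/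
theorem mem_latt_del (hΓ : IsTorusQuotient Γ) (π : V →ₗ[ℂ] W) (w : W)
    (hw : w ∈ latt (Del Γ π)) : ∃ b ∈ latt Γ, π b = Nat.card (Lin Γ) • w := by
  have := finite_Lin hΓ
  obtain ⟨γ, hγ, h⟩ := hw
  let g : Γ := ⟨γ, hγ⟩
  have hp : ∀ (n : ℕ) (v : V), π (((g ^ n : Γ) : V ≃ᵃ[ℂ] V) v) = n • w + π v := by
    intro n
    induction n with
    | zero => intro v; rw [pow_zero, zero_smul, zero_add]; rfl
    | succ n ih =>
      intro v
      have h1 : ((g ^ (n + 1) : Γ) : V ≃ᵃ[ℂ] V) v = ((g ^ n : Γ) : V ≃ᵃ[ℂ] V) (γ v) := by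
        rw [pow_succ]
        rfl
      rw [h1, ih, ← h v]
      change n • w + (w + π v) = (n + 1) • w + π v
      rw [succ_nsmul, add_assoc]
  set M := Nat.card (Lin Γ) with hM
  have hlin : ∀ w, ((g ^ M : Γ) : V ≃ᵃ[ℂ] V).linear w = w := by
    let g' : Lin Γ := ⟨γ.linear, γ, hγ, rfl⟩
    have hg : ∀ n : ℕ, ((g' ^ n : Lin Γ) : V ≃ₗ[ℂ] V) = ((g ^ n : Γ) : V ≃ᵃ[ℂ] V).linear := by
      intro n
      have e1 : ((g' ^ n : Lin Γ) : V ≃ₗ[ℂ] V) = (g' : V ≃ₗ[ℂ] V) ^ n := rfl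
      have e2 : ((g ^ n : Γ) : V ≃ᵃ[ℂ] V) = γ ^ n := rfl
      have e3 : (γ ^ n).linear = AffineEquiv.linearHom (γ ^ n) := rfl
      rw [e1, e2, e3, map_pow]
      rfl
    intro w
    rw [← hg M, hM, pow_card_eq_one']
    rfl
  obtain ⟨hb, -⟩ := eq_tr (g ^ M) hlin
  refine ⟨_, hb, ?_⟩
  rw [hp, map_zero, add_zero]

/-- The base has a discrete group of translations. -/
theorem discrete_del [FiniteDimensional ℂ V] [FiniteDimensional ℂ W] (hΓ : IsTorusQuotient Γ)
    (π : V →ₗ[ℂ] W) (hπ : Function.Surjective π) (U : Submodule ℂ V)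
    (hker : ∀ v, π v = 0 ↔ v ∈ U)
    (hspan : ∀ u ∈ U, u ∈ Submodule.span ℝ {b | b ∈ latt Γ ∧ b ∈ U}) :
    DiscreteTopology (latt (Del Γ π)) := by
  have := finite_Lin hΓ
  have : FiniteDimensional ℝ V := FiniteDimensional.complexToReal V
  have : FiniteDimensional ℝ W := FiniteDimensional.complexToReal W
  have : ProperSpace V := FiniteDimensional.proper ℂ V
  have hdisc : DiscreteTopology (latt Γ) := hΓ.discrete
  obtain ⟨s, hs⟩ := π.exists_rightInverse_of_surjective (LinearMap.range_eq_top.2 hπ)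
  have hs' : ∀ w, π (s w) = w := fun w => LinearMap.congr_fun hs w
  -- boundedness modulo the lattice of `U`
  obtain ⟨C, hC⟩ : ∃ C : ℝ, ∀ u ∈ U, ∃ b ∈ latt Γ, b ∈ U ∧ ‖b + u‖ ≤ C := by
    let S : AddSubgroup U :=
      { carrier := {b | (b : V) ∈ latt Γ}
        zero_mem' := (latt Γ).zero_mem
        add_mem' := fun {a b} ha hb => (latt Γ).add_mem ha hb
        neg_mem' := fun {a} ha => (latt Γ).neg_mem ha }
    have hS : Submodule.span ℝ (S : Set U) = ⊤ := by
      rw [eq_top_iff]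
      intro u _
      have h1 : (Submodule.span ℝ (S : Set U)).map ((U.subtype).restrictScalars ℝ) =
          Submodule.span ℝ {b | b ∈ latt Γ ∧ b ∈ U} := by
        rw [Submodule.map_span]
        congr 1
        ext b
        constructor
        · rintro ⟨c, hc, rfl⟩
          exact ⟨hc, c.2⟩
        · rintro ⟨h1, h2⟩
          exact ⟨⟨b, h2⟩, h1, rfl⟩
      have h2 := hspan u.1 u.2
      rw [← h1] at h2
      obtain ⟨c, hc, hcu⟩ := h2
      have : c = u := Subtype.ext hcu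
      rwa [← this]
    obtain ⟨C, hC⟩ := cobounded S hS
    refine ⟨C, fun u hu => ?_⟩
    obtain ⟨b, hb, hbC⟩ := hC ⟨u, hu⟩
    exact ⟨b, hb, b.2, hbC⟩
  set M := Nat.card (Lin Γ) with hM
  have hM0 : (M : ℂ) ≠ 0 := by
    have : M ≠ 0 := Nat.card_pos.ne'
    exact_mod_cast this
  let s' : W →L[ℂ] V := LinearMap.toContinuousLinearMap s
  let R : ℝ := C + ‖s'‖ * M
  have hfin : (Metric.closedBall (0 : V) R ∩ (latt Γ : Set V)).Finite := by
    have hcl : IsClosed (latt Γ : Set V) := AddSubgroup.isClosed_of_discrete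
    exact Metric.finite_isBounded_inter_isClosed ⟨hdisc⟩ Metric.isBounded_closedBall hcl
  -- finiteness of the small translations of the base
  have hfin2 : {w : W | w ∈ latt (Del Γ π) ∧ ‖w‖ ≤ 1}.Finite := by
    refine (hfin.image fun b => (M : ℂ)⁻¹ • π b).subset ?_
    rintro w ⟨hw, hw1⟩
    obtain ⟨b, hb, hbw⟩ := mem_latt_del hΓ π w hw
    have hu : b - s ((M : ℂ) • w) ∈ U := by
      rw [← hker, map_sub, hs', hbw, Nat.cast_smul_eq_nsmul, sub_self]
    obtain ⟨c, hc, hcU, hcC⟩ := hC _ hu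
    refine ⟨c + b, ⟨?_, (latt Γ).add_mem hc hb⟩, ?_⟩
    · rw [mem_closedBall_zero_iff]
      have h1 : c + b = (c + (b - s ((M : ℂ) • w))) + s ((M : ℂ) • w) := by abel
      have h2 : ‖s ((M : ℂ) • w)‖ ≤ ‖s'‖ * M := by
        refine (s'.le_opNorm ((M : ℂ) • w)).trans ?_
        refine mul_le_mul_of_nonneg_left ?_ (norm_nonneg _)
        rw [norm_smul, Complex.norm_natCast]
        exact mul_le_of_le_one_right (Nat.cast_nonneg _) hw1
      rw [h1]
      exact (norm_add_le _ _).trans (add_le_add hcC h2)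
    · change (M : ℂ)⁻¹ • π (c + b) = w
      rw [map_add, (hker c).2 hcU, zero_add, hbw, ← Nat.cast_smul_eq_nsmul ℂ, smul_smul,
        inv_mul_cancel₀ hM0, one_smul]
  apply discreteTopology_of_isOpen_singleton_zero
  have hF : ({w : W | w ∈ latt (Del Γ π) ∧ ‖w‖ ≤ 1} \ {0}).Finite := hfin2.subset Set.sdiff_subset
  have hopen : IsOpen (Metric.ball (0 : W) 1 ∩
      ({w : W | w ∈ latt (Del Γ π) ∧ ‖w‖ ≤ 1} \ {0})ᶜ) :=
    Metric.isOpen_ball.inter hF.isClosed.isOpen_compl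
  have hpre := hopen.preimage (continuous_subtype_val (p := fun w => w ∈ latt (Del Γ π)))
  convert hpre using 1
  ext w
  constructor
  · intro hw
    rw [Set.mem_singleton_iff] at hw
    subst hw
    refine ⟨?_, ?_⟩
    · simp
    · rintro ⟨-, h⟩
      exact h rfl
  · rintro ⟨h1, h2⟩
    rw [Set.mem_singleton_iff]
    by_contra hne
    refine h2 ⟨⟨w.2, ?_⟩, fun h => hne (Subtype.ext h)⟩
    exact (mem_ball_zero_iff.1 h1).le

/-- An invariant subspace spanned by lattice vectors gives a fibration. -/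
theorem fibration [FiniteDimensional ℂ V] [FiniteDimensional ℂ W] (hΓ : IsTorusQuotient Γ)
    (π : V →ₗ[ℂ] W) (hπ : Function.Surjective π) (U : Submodule ℂ V)
    (hker : ∀ v, π v = 0 ↔ v ∈ U) (hst : ∀ γ ∈ Γ, ∀ v ∈ U, γ.linear v ∈ U)
    (hspan : ∀ u ∈ U, u ∈ Submodule.span ℝ {b | b ∈ latt Γ ∧ b ∈ U}) :
    IsFibration Γ (Del Γ π) π := by
  refine ⟨hπ, ?_, fun δ hδ => hδ, discrete_del hΓ π hπ U hker hspan, ?_, ?_⟩
  · intro γ hγ
    refine exists_Del π hπ ?_ γ hγ
    intro γ hγ v hv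
    rw [hker] at hv ⊢
    exact hst γ hγ v hv
  · have h1 : (π.restrictScalars ℝ) '' (latt Γ : Set V) ⊆ (latt (Del Γ π) : Set W) := by
      rintro _ ⟨b, hb, rfl⟩
      exact latt_of_latt hb
    apply top_le_iff.1
    have h2 : Submodule.span ℝ ((π.restrictScalars ℝ) '' (latt Γ : Set V)) = ⊤ := by
      rw [Submodule.span_image, hΓ.span_top, Submodule.map_top, LinearMap.range_eq_top]
      exact hπ
    rw [← h2]
    exact Submodule.span_mono h1
  · obtain ⟨s, hs⟩ := π.exists_rightInverse_of_surjective (LinearMap.range_eq_top.2 hπ)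
    have hs' : ∀ w, π (s w) = w := fun w => LinearMap.congr_fun hs w
    have h1 := (hΓ.finite_linear.image
      (fun A : V ≃ₗ[ℂ] V => π ∘ₗ (A : V →ₗ[ℂ] V) ∘ₗ s)).preimage
      (LinearEquiv.toLinearMap_injective (R := ℂ) (M := W) (M₂ := W)).injOn
    refine h1.subset ?_
    rintro B ⟨δ, ⟨γ, hγ, h⟩, rfl⟩
    refine ⟨γ.linear, ⟨γ, hγ, rfl⟩, ?_⟩
    ext w
    change π (γ.linear (s w)) = δ.linear w
    have h2 := h (s w)
    rw [hs', act δ w, act γ (s w), map_add] at h2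
    have h3 := h 0
    rw [map_zero] at h3
    rw [h3] at h2
    exact (add_right_cancel h2).symm

/-- The quotient map by a subspace, with values in a coordinate space. -/
theorem exists_quot [FiniteDimensional ℂ V] (U : Submodule ℂ V) :
    ∃ (n : ℕ) (π : V →ₗ[ℂ] (Fin n → ℂ)), Function.Surjective π ∧ ∀ v, π v = 0 ↔ v ∈ U := by
  let e := (Module.finBasis ℂ (V ⧸ U)).equivFun
  refine ⟨_, e.toLinearMap ∘ₗ U.mkQ, e.surjective.comp U.mkQ_surjective, fun v => ?_⟩
  change e (U.mkQ v) = 0 ↔ v ∈ U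
  rw [LinearEquiv.map_eq_zero_iff, Submodule.mkQ_apply, Submodule.Quotient.mk_eq_zero]

end Pool.Agent.Q123.MF
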