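import Pool.Agent.Q82.TQ.Adj

/-!
# Invariant hermitian forms and mirrors: the negative part is spanned by root lines
-/

set_option autoImplicit false

namespace Pool.Agent.Q123.MF

open Pool.Agent.W594.SYZ2 Pool.Agent.W594.SYZ2.TQ Pool.Agent.TH735.AQ Pool.Agent.Y167

variable {V : Type*} [NormedAddCommGroup V] [NormedSpace ℂ V] {Γ : Subgroup (V ≃ᵃ[ℂ] V)}
  {H H₀ : V → V → ℂ}

/-- `u` is an eigenvector of `H` with respect to `H₀`, with eigenvalue `t`. -/
def Eig (H H₀ : V → V → ℂ) (t : ℝ) (u : V) : Prop := ∀ w, H u w = (t : ℂ) * H₀ u w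

theorem Eig.zero (hH : IsHermitian H) (h0 : IsHermitian H₀) (t : ℝ) : Eig H H₀ t 0 := by
  intro w
  rw [h_zero_left hH, h_zero_left h0, mul_zero]

theorem Eig.add (hH : IsHermitian H) (h0 : IsHermitian H₀) {t : ℝ} {u v : V} (hu : Eig H H₀ t u)
    (hv : Eig H H₀ t v) : Eig H H₀ t (u + v) := by
  intro w
  rw [hH.add_left, h0.add_left, hu w, hv w, mul_add]

theorem Eig.smul (hH : IsHermitian H) (h0 : IsHermitian H₀) {t : ℝ} {u : V} (hu : Eig H H₀ t u)
    (c : ℂ) : Eig H H₀ t (c • u) := by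
  intro w
  rw [hH.smul_left, h0.smul_left, hu w]
  ring

/-- Eigenvectors with different eigenvalues are orthogonal. -/
theorem Eig.orth (hH : IsHermitian H) (h0 : IsHermitian H₀) {t s : ℝ} {u v : V}
    (hu : Eig H H₀ t u) (hv : Eig H H₀ s v) (hts : t ≠ s) : H₀ u v = 0 := by
  have h1 : H u v = (s : ℂ) * H₀ u v := by
    rw [hH.symm v u, hv u, map_mul, Complex.conj_ofReal, ← h0.symm v u]
  rw [hu v] at h1
  have h2 : ((t : ℂ) - s) * H₀ u v = 0 := by rw [sub_mul, h1, sub_self]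
  rcases mul_eq_zero.1 h2 with h | h
  · exact absurd (by exact_mod_cast sub_eq_zero.1 h) hts
  · exact h

theorem h_sum_left {ι : Type*} (hH : IsHermitian H) (s : Finset ι) (f : ι → V) (w : V) :
    H (∑ i ∈ s, f i) w = ∑ i ∈ s, H (f i) w := by
  classical
  induction s using Finset.induction_on with
  | empty => simp [h_zero_left hH]
  | insert i s hi ih => rw [Finset.sum_insert hi, Finset.sum_insert hi, hH.add_left, ih]

theorem h_sum_right {ι : Type*} (hH : IsHermitian H) (s : Finset ι) (f : ι → V) (w : V) :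
    H w (∑ i ∈ s, f i) = ∑ i ∈ s, H w (f i) := by
  classical
  induction s using Finset.induction_on with
  | empty => simp [h_zero_right hH]
  | insert i s hi ih => rw [Finset.sum_insert hi, Finset.sum_insert hi, h_add_right hH, ih]

/-- The linear span of eigenvectors with negative eigenvalues: the form is negative definite. -/
theorem neg_of_span (hH : IsHermitian H) (h0 : IsHermitian H₀) (hpos : IsPositiveForm H₀)
    (S : Set V) (hS : ∀ r ∈ S, ∃ t : ℝ, t < 0 ∧ Eig H H₀ t r) {u : V}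
    (hu : u ∈ Submodule.span ℂ S) (hu0 : u ≠ 0) : (H u u).re < 0 := by
  classical
  have key : ∀ u ∈ Submodule.span ℂ S, ∃ f : ℝ →₀ V, (∀ t ∈ f.support, t < 0) ∧
      (∀ t, Eig H H₀ t (f t)) ∧ u = f.sum fun _ v => v := by
    intro u hu
    induction hu using Submodule.span_induction with
    | mem r hr =>
      obtain ⟨t, ht, he⟩ := hS r hr
      refine ⟨Finsupp.single t r, ?_, ?_, ?_⟩
      · intro s hs
        have := Finsupp.support_single_subset hs
        rw [Finset.mem_singleton] at this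
        rwa [this]
      · intro s
        by_cases hst : t = s
        · subst hst
          rwa [Finsupp.single_eq_same]
        · rw [Finsupp.single_eq_of_ne (fun h => hst h.symm)]
          exact Eig.zero hH h0 s
      · rw [Finsupp.sum_single_index rfl]
    | zero => exact ⟨0, by simp, fun t => Eig.zero hH h0 t, by simp⟩
    | add x y _ _ hx hy =>
      obtain ⟨f, hf1, hf2, rfl⟩ := hx
      obtain ⟨g, hg1, hg2, rfl⟩ := hy
      refine ⟨f + g, ?_, fun t => (hf2 t).add hH h0 (hg2 t), ?_⟩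
      · intro t ht
        rcases Finset.mem_union.1 (Finsupp.support_add ht) with h | h
        · exact hf1 t h
        · exact hg1 t h
      · rw [Finsupp.sum_add_index' (fun _ => rfl) fun _ _ _ => rfl]
    | smul c x _ hx =>
      obtain ⟨f, hf1, hf2, rfl⟩ := hx
      refine ⟨c • f, fun t ht => hf1 t (Finsupp.support_smul ht),
        fun t => (hf2 t).smul hH h0 c, ?_⟩
      rw [Finsupp.sum_smul_index' (fun _ => rfl), Finsupp.smul_sum]
  obtain ⟨f, hf1, hf2, rfl⟩ := key u hu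
  rw [Finsupp.sum] at hu0 ⊢
  have hHu : H (∑ t ∈ f.support, f t) (∑ t ∈ f.support, f t) =
      ∑ t ∈ f.support, (t : ℂ) * H₀ (f t) (f t) := by
    rw [h_sum_left hH]
    refine Finset.sum_congr rfl fun t ht => ?_
    rw [hf2 t, h_sum_right h0]
    congr 1
    rw [Finset.sum_eq_single_of_mem t ht]
    intro s _ hst
    exact (hf2 t).orth hH h0 (hf2 s) (fun h => hst h.symm)
  rw [hHu, Complex.re_sum]
  have hne : ∃ t ∈ f.support, True := by
    by_contra hcon
    push Not at hcon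
    apply hu0
    exact Finset.sum_eq_zero fun t ht => (hcon t ht).elim
  obtain ⟨t₀, ht₀, -⟩ := hne
  have hterm : ∀ t ∈ f.support, ((t : ℂ) * H₀ (f t) (f t)).re < 0 := by
    intro t ht
    rw [Complex.re_ofReal_mul]
    exact mul_neg_of_neg_of_pos (hf1 t ht) (hpos _ (Finsupp.mem_support_iff.1 ht))
  exact Finset.sum_neg hterm ⟨t₀, ht₀⟩

section Inv

variable [FiniteDimensional ℂ V]

/-- There is an invariant positive definite hermitian form. -/
theorem exists_inv_form (hΓ : IsTorusQuotient Γ) : ∃ H₀ : V → V → ℂ, IsHermitian H₀ ∧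
    IsPositiveForm H₀ ∧ ∀ γ ∈ Γ, ∀ v w, H₀ (γ.linear v) (γ.linear w) = H₀ v w := by
  have := finite_Lin hΓ
  have : Fintype (Lin Γ) := Fintype.ofFinite _
  let b := Module.finBasis ℂ V
  let P : V → V → ℂ := fun v w => ∑ i, b.repr v i * starRingEnd ℂ (b.repr w i)
  have hP : IsHermitian P := by
    refine ⟨fun u v w => ?_, fun a v w => ?_, fun v w => ?_⟩
    · simp only [P, map_add, Finsupp.add_apply, add_mul, Finset.sum_add_distrib]
    · simp only [P, map_smul, Finsupp.smul_apply, smul_eq_mul, Finset.mul_sum, mul_assoc]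
    · simp only [P, map_sum, map_mul, Complex.conj_conj]
      exact Finset.sum_congr rfl fun i _ => mul_comm _ _
  have hP0 : ∀ v, 0 ≤ (P v v).re := by
    intro v
    simp only [P, Complex.re_sum, Complex.mul_conj, Complex.ofReal_re]
    exact Finset.sum_nonneg fun i _ => Complex.normSq_nonneg _
  have hPp : IsPositiveForm P := by
    intro v hv
    refine lt_of_le_of_ne (hP0 v) fun h => hv ?_
    simp only [P, Complex.re_sum, Complex.mul_conj, Complex.ofReal_re] at h
    have h1 := (Finset.sum_eq_zero_iff_of_nonneg fun i _ => Complex.normSq_nonneg _).1 h.symm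
    apply b.repr.injective
    ext i
    rw [map_zero, Finsupp.zero_apply]
    exact Complex.normSq_eq_zero.1 (h1 i (Finset.mem_univ i))
  refine ⟨fun v w => ∑ g : Lin Γ, P (g.1 v) (g.1 w), ⟨?_, ?_, ?_⟩, ?_, ?_⟩
  · intro u v w
    simp only [map_add, hP.add_left, Finset.sum_add_distrib]
  · intro a v w
    simp only [map_smul, hP.smul_left, Finset.mul_sum]
  · intro v w
    rw [map_sum]
    exact Finset.sum_congr rfl fun g _ => hP.symm _ _
  · intro v hv
    change 0 < (∑ g : Lin Γ, P (g.1 v) (g.1 v)).re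
    rw [Complex.re_sum]
    refine Finset.sum_pos (fun g _ => hPp _ ?_) ⟨1, Finset.mem_univ _⟩
    intro h
    exact hv (g.1.injective (by rw [h, map_zero]))
  · intro γ hγ v w
    let h : Lin Γ := ⟨γ.linear, γ, hγ, rfl⟩
    refine Fintype.sum_equiv (Equiv.mulRight h) _ _ ?_
    intro g
    rfl

end Inv

/-- `γ` is a reflection: it fixes each point of a complex affine hyperplane. -/
def IsRefl (Γ : Subgroup (V ≃ᵃ[ℂ] V)) (γ : V ≃ᵃ[ℂ] V) : Prop :=
  γ ∈ Γ ∧ γ ≠ 1 ∧ ∃ ℓ : V →ₗ[ℂ] ℂ, ℓ ≠ 0 ∧ ∃ c, ∀ x, ℓ x = c → γ x = x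

/-- The root vectors: nonzero vectors `g x - x`, where `g` is the linear part of a reflection. -/
def IsRoot (Γ : Subgroup (V ≃ᵃ[ℂ] V)) (r : V) : Prop :=
  r ≠ 0 ∧ ∃ γ, IsRefl Γ γ ∧ ∃ x, r = γ.linear x - x

/-- The shape of a reflection. -/
theorem refl_shape {γ : V ≃ᵃ[ℂ] V} (hγ : IsRefl Γ γ) {r x : V} (hr0 : r ≠ 0)
    (hr : r = γ.linear x - x) :
    ∃ m : V →ₗ[ℂ] ℂ, m x = 1 ∧ ∀ v, γ.linear v = v + m v • r := by
  obtain ⟨-, -, ℓ, hℓ, c, hfix⟩ := hγ
  obtain ⟨y, hy⟩ : ∃ y, ℓ y = c := by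
    have h1 : ∃ v, ℓ v ≠ 0 := by
      by_contra hcon
      push Not at hcon
      exact hℓ (LinearMap.ext hcon)
    obtain ⟨v, hv⟩ := h1
    exact ⟨(c / ℓ v) • v, by rw [map_smul, smul_eq_mul, div_mul_cancel₀ _ hv]⟩
  have h0 : γ y = y := hfix y hy
  have hlin : ∀ w, ℓ w = 0 → γ.linear w = w := by
    intro w hw
    have h1 : γ (y + w) = y + w := hfix _ (by rw [map_add, hw, add_zero, hy])
    rw [act_add, h0] at h1
    exact add_left_cancel h1
  have hx : ℓ x ≠ 0 := by
    intro h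
    apply hr0
    rw [hr, hlin x h, sub_self]
  refine ⟨(ℓ x)⁻¹ • ℓ, by rw [LinearMap.smul_apply, smul_eq_mul, inv_mul_cancel₀ hx], ?_⟩
  intro v
  have h1 := hlin (v - (ℓ v / ℓ x) • x) (by
    rw [map_sub, map_smul, smul_eq_mul, div_mul_cancel₀ _ hx, sub_self])
  rw [map_sub, map_smul] at h1
  have h2 : γ.linear v = v - (ℓ v / ℓ x) • x + (ℓ v / ℓ x) • γ.linear x := by
    rw [← h1]
    abel
  rw [h2, hr, LinearMap.smul_apply, smul_eq_mul, smul_sub, div_eq_inv_mul]
  abel

/-- A reflection has a linear part different from the identity. -/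
theorem refl_linear {γ : V ≃ᵃ[ℂ] V} (hγ : IsRefl Γ γ) : ∃ x, γ.linear x - x ≠ 0 := by
  by_contra hcon
  push Not at hcon
  obtain ⟨-, hne, ℓ, hℓ, c, hfix⟩ := hγ
  obtain ⟨y, hy⟩ : ∃ y, ℓ y = c := by
    have h1 : ∃ v, ℓ v ≠ 0 := by
      by_contra hcon
      push Not at hcon
      exact hℓ (LinearMap.ext hcon)
    obtain ⟨v, hv⟩ := h1
    exact ⟨(c / ℓ v) • v, by rw [map_smul, smul_eq_mul, div_mul_cancel₀ _ hv]⟩
  apply hne
  ext v
  have h1 : γ (y + (v - y)) = γ y + γ.linear (v - y) := act_add γ y (v - y)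
  rw [hfix y hy, sub_eq_zero.1 (hcon (v - y)), add_sub_cancel] at h1
  exact h1

/-- The root is an eigenvector of the reflection with an eigenvalue different from one. -/
theorem root_ne (hΓ : IsTorusQuotient Γ) {γ : V ≃ᵃ[ℂ] V} (hγ : IsRefl Γ γ) {r x : V}
    (hr0 : r ≠ 0) {m : V →ₗ[ℂ] ℂ} (hmx : m x = 1) (hm : ∀ v, γ.linear v = v + m v • r) :
    m r ≠ 0 := by
  intro hmr
  have := finite_Lin hΓ
  let g : Lin Γ := ⟨γ.linear, γ, hγ.1, rfl⟩
  have hp : ∀ n : ℕ, ((g ^ n : Lin Γ) : V ≃ₗ[ℂ] V) x = x + (n : ℂ) • r := by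
    intro n
    induction n with
    | zero => simp
    | succ n ih =>
      have h1 : ((g ^ (n + 1) : Lin Γ) : V ≃ₗ[ℂ] V) x = γ.linear (((g ^ n : Lin Γ) : V ≃ₗ[ℂ] V) x) := by
        rw [pow_succ']
        rfl
      rw [h1, ih, hm, map_add, map_smul, hmr, smul_zero, add_zero, hmx, one_smul]
      push_cast
      rw [add_smul, one_smul, add_assoc]
  have h1 := hp (Nat.card (Lin Γ))
  rw [pow_card_eq_one'] at h1
  have h2 : (Nat.card (Lin Γ) : ℂ) • r = 0 := by
    have h3 : x = x + (Nat.card (Lin Γ) : ℂ) • r := h1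
    exact (left_eq_add.1 h3)
  rcases smul_eq_zero.1 h2 with h | h
  · have : Nat.card (Lin Γ) = 0 := by exact_mod_cast h
    exact Nat.card_pos.ne' this
  · exact hr0 h

/-- A root vector is orthogonal to the hyperplane, for each invariant form. -/
theorem root_orth (hΓ : IsTorusQuotient Γ) (hH : IsHermitian H)
    (hinv : ∀ γ ∈ Γ, ∀ v w, H (γ.linear v) (γ.linear w) = H v w) {γ : V ≃ᵃ[ℂ] V}
    (hγ : IsRefl Γ γ) {r x : V} (hr0 : r ≠ 0) {m : V →ₗ[ℂ] ℂ} (hmx : m x = 1)
    (hm : ∀ v, γ.linear v = v + m v • r) {w : V} (hw : m w = 0) : H r w = 0 := by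
  have h1 := hinv γ hγ.1 r w
  rw [hm r, hm w, hw, zero_smul, add_zero, hH.add_left, hH.smul_left] at h1
  have h2 : m r * H r w = 0 := by
    have := h1
    exact (add_eq_left.1 this)
  exact (mul_eq_zero.1 h2).resolve_left (root_ne hΓ hγ hr0 hmx hm)

/-- Root vectors are eigenvectors of each invariant form. -/
theorem root_eig (hΓ : IsTorusQuotient Γ) (hH : IsHermitian H) (h0 : IsHermitian H₀)
    (hpos : IsPositiveForm H₀)
    (hinv : ∀ γ ∈ Γ, ∀ v w, H (γ.linear v) (γ.linear w) = H v w)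
    (hinv0 : ∀ γ ∈ Γ, ∀ v w, H₀ (γ.linear v) (γ.linear w) = H₀ v w) {r : V}
    (hr : IsRoot Γ r) : Eig H H₀ ((H r r).re / (H₀ r r).re) r := by
  obtain ⟨hr0, γ, hγ, x, hrx⟩ := hr
  obtain ⟨m, hmx, hm⟩ := refl_shape hγ hr0 hrx
  have hmr := root_ne hΓ hγ hr0 hmx hm
  have hre : ∀ {G : V → V → ℂ}, IsHermitian G → G r r = ((G r r).re : ℂ) := by
    intro G hG
    apply Complex.ext
    · rw [Complex.ofReal_re]
    · rw [Complex.ofReal_im]
      have := h_im_symm hG r r
      linarith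
  have hp := hpos r hr0
  intro w
  have hdec : w = (m w / m r) • r + (w - (m w / m r) • r) := by abel
  have hz : m (w - (m w / m r) • r) = 0 := by
    rw [map_sub, map_smul, smul_eq_mul, div_mul_cancel₀ _ hmr, sub_self]
  have e1 : H r w = starRingEnd ℂ (m w / m r) * H r r := by
    conv_lhs => rw [hdec]
    rw [h_add_right hH, h_smul_right hH, root_orth hΓ hH hinv hγ hr0 hmx hm hz, add_zero]
  have e2 : H₀ r w = starRingEnd ℂ (m w / m r) * H₀ r r := by
    conv_lhs => rw [hdec]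
    rw [h_add_right h0, h_smul_right h0, root_orth hΓ h0 hinv0 hγ hr0 hmx hm hz, add_zero]
  rw [e1, e2, hre hH, hre h0, Complex.ofReal_re, Complex.ofReal_re]
  have hp' : ((H₀ r r).re : ℂ) ≠ 0 := by exact_mod_cast hp.ne'
  push_cast
  field_simp

end Pool.Agent.Q123.MF
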