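import Pool.Agent.Q123.MF.Neg
import Pool.Agent.Q123.MF.Fib

/-!
# The log minimal model program for torus quotients
-/

set_option autoImplicit false

namespace Pool.Agent.Q123.MF

open Pool.Agent.W594.SYZ2 Pool.Agent.W594.SYZ2.TQ Pool.Agent.TH735.AQ Pool.Agent.Y167
  Pool.Agent.Q82.TQ

variable {V : Type*} [NormedAddCommGroup V] [NormedSpace ℂ V] [FiniteDimensional ℂ V]
  {Γ : AffGrp V} {ι : Type} [Fintype ι]

theorem adj_herm {q : ℕ} {K : LineBundle Γ} {HK : V → V → ℂ} (hKc : IsChernForm K HK)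
    (Δ : EffDiv Γ ι) : IsHermitian (adjClass q HK Δ) := by
  have hc := chern_o hKc Δ
  rw [← comb_eq]
  exact comb_herm _ fun k => (hc k).1

/-- The data for the class of `K_X + Δ`. -/
theorem adj_dat (hΓ : IsTorusQuotient Γ) {q : ℕ} (hq : 1 ≤ q) {ρ : V → ℂ}
    (hρ : IsRamification Γ ρ) {K : LineBundle Γ}
    (hK : IsLogPluricanonical K q ρ (fun _ => 1)) {HK : V → V → ℂ} (hKc : IsChernForm K HK)
    (Δ : EffDiv Γ ι) : ∃ H₀, Dat Γ (adjClass q HK Δ) H₀ := by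
  obtain ⟨H₀, h1, h2, h3⟩ := exists_inv_form hΓ
  refine ⟨H₀, hΓ, adj_herm hKc Δ, h1, h2, ?_, h3, ?_⟩
  · have hc := chern_o hKc Δ
    choose hG F hF hFe using hc
    have hinv : ∀ k, ∀ γ ∈ Γ, ∀ v w, Go HK Δ k (γ.linear v) (γ.linear w) = Go HK Δ k v w :=
      fun k γ hγ v w => h_inv (hG k) ⟨hF k, hFe k⟩ ⟨γ, hγ⟩ v w
    rw [← comb_eq]
    exact comb_inv _ hinv
  · intro w hw
    rw [← comb_eq, comb_re, Fintype.sum_option]
    change 0 ≤ (q : ℝ)⁻¹ * (HK w w).re + ∑ i, Δ.r i * (Δ.H i w w).re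
    rw [mirror_zero hΓ hKc hρ hq hK hw, mul_zero, zero_add]
    exact Finset.sum_nonneg fun i _ => mul_nonneg (Δ.nonneg i)
      (nef_of_section hΓ (Δ.chern i) (Δ.sect i) (Δ.ne_zero i) w)

/-- The fibration which contracts the negative part of the class of `K_X + Δ`. -/
theorem main (hΓ : IsTorusQuotient Γ) {q : ℕ} (hq : 1 ≤ q) {ρ : V → ℂ}
    (hρ : IsRamification Γ ρ) {K : LineBundle Γ}
    (hK : IsLogPluricanonical K q ρ (fun _ => 1)) {HK : V → V → ℂ} (hKc : IsChernForm K HK)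
    (Δ : EffDiv Γ ι) :
    ∃ (n : ℕ) (B : Subgroup ((Fin n → ℂ) ≃ᵃ[ℂ] (Fin n → ℂ))) (π : V →ₗ[ℂ] (Fin n → ℂ)),
      IsFibration Γ B π ∧ (∀ v, π v = 0 ↔ v ∈ negPart Γ (adjClass q HK Δ)) ∧
      (∀ v, v ≠ 0 → π v = 0 → (adjClass q HK Δ v v).re < 0) ∧
      (∀ v, (∀ u, π u = 0 → adjClass q HK Δ u v = 0) → 0 ≤ (adjClass q HK Δ v v).re) ∧
      (¬ IsNefForm (adjClass q HK Δ) ↔ n < Module.finrank ℂ V) := by
  obtain ⟨H₀, D⟩ := adj_dat hΓ hq hρ hK hKc Δ
  set H := adjClass q HK Δ with hH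
  obtain ⟨n, π, hπ, hker⟩ := exists_quot (negPart Γ H)
  have h3 : ∀ v, v ≠ 0 → π v = 0 → (H v v).re < 0 := fun v hv hv0 => D.neg ((hker v).1 hv0) hv
  have h4 : ∀ v, (∀ u, π u = 0 → H u v = 0) → 0 ≤ (H v v).re := by
    intro v hv
    exact D.psd (D.perp_of fun u hu => hv u ((hker u).2 hu))
  refine ⟨n, Del Γ π, π, fibration hΓ π hπ _ hker (fun γ hγ v hv => D.stable hγ hv)
    (fun u hu => D.rational hu), hker, h3, h4, ?_⟩
  have hrank := LinearMap.finrank_range_add_finrank_ker π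
  rw [LinearMap.range_eq_top.2 hπ, finrank_top, Module.finrank_fin_fun] at hrank
  constructor
  · intro hn
    by_contra hlt
    apply hn
    have h5 : Module.finrank ℂ (LinearMap.ker π) = 0 := by omega
    have h6 : LinearMap.ker π = ⊥ := Submodule.finrank_eq_zero.1 h5
    intro v
    apply h4
    intro u hu
    have h7 : u ∈ LinearMap.ker π := hu
    rw [h6, Submodule.mem_bot] at h7
    rw [h7, h_zero_left D.hH]
  · intro hlt hn
    have h5 : LinearMap.ker π ≠ ⊥ := by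
      intro h
      rw [h, finrank_bot] at hrank
      omega
    obtain ⟨v, hv, hv0⟩ := Submodule.exists_mem_ne_zero_of_ne_bot h5
    exact absurd (hn v) (not_le.2 (h3 v hv0 hv))

end Pool.Agent.Q123.MF
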