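import Pool.Agent.Q123.MF.Herm

/-!
# The negative part of an invariant form which is not negative on the vectors fixed by reflections
-/

set_option autoImplicit false

namespace Pool.Agent.Q123.MF

open Pool.Agent.W594.SYZ2 Pool.Agent.W594.SYZ2.TQ Pool.Agent.TH735.AQ Pool.Agent.Y167

variable {V : Type*} [NormedAddCommGroup V] [NormedSpace ℂ V] {Γ : Subgroup (V ≃ᵃ[ℂ] V)}
  {H H₀ : V → V → ℂ}

/-- The span of the root vectors with negative square. -/
def negPart (Γ : Subgroup (V ≃ᵃ[ℂ] V)) (H : V → V → ℂ) : Submodule ℂ V :=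
  Submodule.span ℂ {r | IsRoot Γ r ∧ (H r r).re < 0}

/-- The data: an invariant form and an invariant positive definite form. -/
structure Dat (Γ : Subgroup (V ≃ᵃ[ℂ] V)) (H H₀ : V → V → ℂ) : Prop where
  tq : IsTorusQuotient Γ
  hH : IsHermitian H
  h0 : IsHermitian H₀
  pos : IsPositiveForm H₀
  inv : ∀ γ ∈ Γ, ∀ v w, H (γ.linear v) (γ.linear w) = H v w
  inv0 : ∀ γ ∈ Γ, ∀ v w, H₀ (γ.linear v) (γ.linear w) = H₀ v w
  fixd : ∀ w, MirrorFixed Γ w → 0 ≤ (H w w).re

theorem Dat.eig (D : Dat Γ H H₀) {r : V} (hr : IsRoot Γ r) :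
    Eig H H₀ ((H r r).re / (H₀ r r).re) r :=
  root_eig D.tq D.hH D.h0 D.pos D.inv D.inv0 hr

theorem Dat.neg (D : Dat Γ H H₀) {u : V} (hu : u ∈ negPart Γ H) (hu0 : u ≠ 0) :
    (H u u).re < 0 := by
  refine neg_of_span D.hH D.h0 D.pos _ ?_ hu hu0
  rintro r ⟨hr, hneg⟩
  exact ⟨_, div_neg_of_neg_of_pos hneg (D.pos r hr.1), D.eig hr⟩

/-- A vector orthogonal to all root vectors is fixed by the linear parts of all reflections. -/
theorem Dat.fixed (D : Dat Γ H H₀) {v : V} (hv : ∀ r, IsRoot Γ r → H₀ r v = 0) :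
    MirrorFixed Γ v := by
  intro γ hγ hne hex
  have hR : IsRefl Γ γ := ⟨hγ, hne, hex⟩
  obtain ⟨x, hx⟩ := refl_linear hR
  obtain ⟨m, hmx, hm⟩ := refl_shape hR hx rfl
  have hmr := root_ne D.tq hR hx hmx hm
  have hroot : IsRoot Γ (γ.linear x - x) := ⟨hx, γ, hR, x, rfl⟩
  have h1 := hv _ hroot
  set r := γ.linear x - x with hr
  have hdec : v = (m v / m r) • r + (v - (m v / m r) • r) := by abel
  have hz : m (v - (m v / m r) • r) = 0 := by
    rw [map_sub, map_smul, smul_eq_mul, div_mul_cancel₀ _ hmr, sub_self]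
  rw [hdec, h_add_right D.h0, h_smul_right D.h0,
    root_orth D.tq D.h0 D.inv0 hR hx hmx hm hz, add_zero] at h1
  have hrr : H₀ r r ≠ 0 := by
    intro h
    have := D.pos r hx
    rw [h, Complex.zero_re] at this
    exact lt_irrefl _ this
  have h2 := (mul_eq_zero.1 h1).resolve_right hrr
  have h3 : m v / m r = 0 := by
    have := congrArg (starRingEnd ℂ) h2
    rwa [Complex.conj_conj, map_zero] at this
  have h4 : m v = 0 := (div_eq_zero_iff.1 h3).resolve_right hmr
  rw [hm, h4, zero_smul, add_zero]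

/-- The orthogonal complement. -/
def perp (h0 : IsHermitian H₀) (U : Submodule ℂ V) : Submodule ℂ V where
  carrier := {v | ∀ u ∈ U, H₀ u v = 0}
  zero_mem' := fun u _ => h_zero_right h0 u
  add_mem' := fun {a b} ha hb u hu => by rw [h_add_right h0, ha u hu, hb u hu, add_zero]
  smul_mem' := fun c x hx u hu => by rw [h_smul_right h0, hx u hu, mul_zero]

theorem restr_herm {D : V → V → ℂ} (hD : IsHermitian D) (C : Submodule ℂ V) :
    IsHermitian (fun a b : C => D a b) :=
  ⟨fun u v w => hD.add_left u v w, fun a v w => hD.smul_left a v w, fun v w => hD.symm v w⟩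

theorem sub_herm (hH : IsHermitian H) (h0 : IsHermitian H₀) (t : ℝ) :
    IsHermitian (fun v w => H v w - (t : ℂ) * H₀ v w) := by
  refine ⟨fun u v w => ?_, fun a v w => ?_, fun v w => ?_⟩
  · rw [hH.add_left, h0.add_left]; ring
  · rw [hH.smul_left, h0.smul_left]; ring
  · rw [map_sub, map_mul, Complex.conj_ofReal, ← hH.symm v w, ← h0.symm v w]

theorem Dat.perp_of (D : Dat Γ H H₀) {v : V} (hv : ∀ u ∈ negPart Γ H, H u v = 0) :
    v ∈ perp D.h0 (negPart Γ H) := by
  intro u hu
  induction hu using Submodule.span_induction with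
  | mem r hr =>
    have h1 := hv r (Submodule.subset_span hr)
    rw [D.eig hr.1 v] at h1
    rcases mul_eq_zero.1 h1 with h | h
    · have h2 : (H r r).re / (H₀ r r).re = 0 := by exact_mod_cast h
      have h3 := div_neg_of_neg_of_pos hr.2 (D.pos r hr.1.1)
      rw [h2] at h3
      exact absurd h3 (lt_irrefl _)
    · exact h
  | zero => exact h_zero_left D.h0 v
  | add x y _ _ hx hy => rw [D.h0.add_left, hx, hy, add_zero]
  | smul c x _ hx => rw [D.h0.smul_left, hx, mul_zero]

/-- The form is semidefinite on the orthogonal complement of the negative part. -/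
theorem Dat.psd [FiniteDimensional ℂ V] (D : Dat Γ H H₀) {v : V}
    (hv : v ∈ perp D.h0 (negPart Γ H)) : 0 ≤ (H v v).re := by
  by_contra hneg
  push Not at hneg
  have : ProperSpace V := FiniteDimensional.proper ℂ V
  set C := perp D.h0 (negPart Γ H) with hC
  have hclosed : IsClosed (C : Set V) := C.closed_of_finiteDimensional
  let K : Set V := Metric.sphere 0 1 ∩ C
  have hK : IsCompact K := (isCompact_sphere 0 1).inter_right hclosed
  have hv0 : v ≠ 0 := by
    rintro rfl
    rw [h_zero_left D.hH, Complex.zero_re] at hneg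
    exact lt_irrefl _ hneg
  let f : V → ℝ := fun w => (H w w).re / (H₀ w w).re
  have hf : ContinuousOn f K := by
    refine ContinuousOn.div (diag_continuous D.hH).continuousOn (diag_continuous D.h0).continuousOn ?_
    rintro w ⟨hw, -⟩
    have hw0 : w ≠ 0 := by
      rintro rfl
      simp at hw
    exact (D.pos w hw0).ne'
  have hnv : (‖v‖ : ℂ)⁻¹ • v ∈ K := by
    refine ⟨?_, C.smul_mem _ hv⟩
    rw [mem_sphere_zero_iff_norm, norm_smul, norm_inv, Complex.norm_real, norm_norm]
    exact inv_mul_cancel₀ (norm_ne_zero_iff.2 hv0)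
  have hscale : ∀ (c : ℂ), c ≠ 0 → ∀ w, f (c • w) = f w := by
    intro c hc w
    simp only [f]
    rw [h_diag_smul D.hH, h_diag_smul D.h0]
    exact mul_div_mul_left _ _ (pow_ne_zero 2 (norm_ne_zero_iff.2 hc))
  obtain ⟨v₀, hv₀, hmin⟩ := hK.exists_isMinOn ⟨_, hnv⟩ hf
  have hv₀0 : v₀ ≠ 0 := by
    rintro rfl
    simp [K] at hv₀
  have hmin' : ∀ w ∈ C, w ≠ 0 → f v₀ ≤ f w := by
    intro w hw hw0
    have hc : (‖w‖ : ℂ)⁻¹ ≠ 0 := by
      apply inv_ne_zero
      exact_mod_cast norm_ne_zero_iff.2 hw0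
    rw [← hscale _ hc w]
    apply hmin
    refine ⟨?_, C.smul_mem _ hw⟩
    rw [mem_sphere_zero_iff_norm, norm_smul, norm_inv, Complex.norm_real, norm_norm]
    exact inv_mul_cancel₀ (norm_ne_zero_iff.2 hw0)
  set t := f v₀ with ht
  have ht0 : t < 0 := lt_of_le_of_lt (hmin' v hv hv0) (div_neg_of_neg_of_pos hneg (D.pos v hv0))
  have hform := restr_herm (sub_herm D.hH D.h0 t) C
  have hnef : IsNefForm (fun a b : C => H a b - (t : ℂ) * H₀ a b) := by
    intro a
    change 0 ≤ (H a a - (t : ℂ) * H₀ a a).re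
    rw [Complex.sub_re, Complex.re_ofReal_mul]
    by_cases ha : (a : V) = 0
    · rw [ha, h_zero_left D.hH, h_zero_left D.h0]; simp
    · have h1 := hmin' a a.2 ha
      rw [le_div_iff₀ (D.pos a ha)] at h1
      linarith
  have hiso : ∀ w ∈ C, H v₀ w = (t : ℂ) * H₀ v₀ w := by
    intro w hw
    have h1 := h_isotropic hform hnef ⟨v₀, hv₀.2⟩ (by
      change (H v₀ v₀ - (t : ℂ) * H₀ v₀ v₀).re = 0
      rw [Complex.sub_re, Complex.re_ofReal_mul, ht]
      simp only [f]
      rw [div_mul_cancel₀ _ (D.pos v₀ hv₀0).ne', sub_self]) ⟨w, hw⟩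
    exact sub_eq_zero.1 h1
  have hroots : ∀ r, IsRoot Γ r → H₀ r v₀ = 0 := by
    intro r hr
    by_cases hrn : (H r r).re < 0
    · exact hv₀.2 r (Submodule.subset_span ⟨hr, hrn⟩)
    · push Not at hrn
      have hs : 0 ≤ (H r r).re / (H₀ r r).re := div_nonneg hrn (D.pos r hr.1).le
      have hrC : r ∈ C := by
        intro u hu
        induction hu using Submodule.span_induction with
        | mem q hq =>
          refine (D.eig hq.1).orth D.hH D.h0 (D.eig hr) ?_
          have := div_neg_of_neg_of_pos hq.2 (D.pos q hq.1.1)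
          exact (lt_of_lt_of_le this hs).ne
        | zero => exact h_zero_left D.h0 r
        | add x y _ _ hx hy => rw [D.h0.add_left, hx, hy, add_zero]
        | smul c x _ hx => rw [D.h0.smul_left, hx, mul_zero]
      have h1 := hiso r hrC
      have h2 : H r v₀ = (t : ℂ) * H₀ r v₀ := by
        rw [D.hH.symm v₀ r, h1, map_mul, Complex.conj_ofReal, ← D.h0.symm v₀ r]
      rw [D.eig hr v₀] at h2
      have h3 : (((H r r).re / (H₀ r r).re : ℝ) - (t : ℂ)) * H₀ r v₀ = 0 := by
        rw [sub_mul, h2, sub_self]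
      rcases mul_eq_zero.1 h3 with h | h
      · have h4 : (H r r).re / (H₀ r r).re = t := by exact_mod_cast sub_eq_zero.1 h
        rw [h4] at hs
        exact absurd hs (not_le.2 ht0)
      · exact h
  have h5 := D.fixd v₀ (D.fixed hroots)
  have h6 : (H v₀ v₀).re = t * (H₀ v₀ v₀).re := by
    rw [ht]
    simp only [f]
    rw [div_mul_cancel₀ _ (D.pos v₀ hv₀0).ne']
  rw [h6] at h5
  exact absurd h5 (not_le.2 (mul_neg_of_neg_of_pos ht0 (D.pos v₀ hv₀0)))

/-- The image of a root vector is a root vector. -/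
theorem root_image {δ : V ≃ᵃ[ℂ] V} (hδ : δ ∈ Γ) {r : V} (hr : IsRoot Γ r) :
    IsRoot Γ (δ.linear r) := by
  obtain ⟨hr0, γ, ⟨hγ, hne, ℓ, hℓ, c, hfix⟩, x, hx⟩ := hr
  refine ⟨fun h => hr0 (δ.linear.injective (by rw [h, map_zero])), δ * γ * δ⁻¹, ⟨?_, ?_, ?_⟩,
    δ.linear x, ?_⟩
  · exact Γ.mul_mem (Γ.mul_mem hδ hγ) (Γ.inv_mem hδ)
  · intro h
    apply hne
    have h1 := congrArg (fun z => δ⁻¹ * z * δ) h
    simpa [mul_assoc] using h1
  · refine ⟨ℓ ∘ₗ (δ.linear.symm : V →ₗ[ℂ] V), ?_, c + ℓ (δ.linear.symm (δ 0)), ?_⟩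
    · intro h
      apply hℓ
      ext v
      have := LinearMap.congr_fun h (δ.linear v)
      simpa using this
    · intro y hy
      change δ (γ (δ.symm y)) = y
      have h1 : ℓ (δ.symm y) = c := by
        have h2 : δ.linear (δ.symm y) = y - δ 0 := by
          have := act δ (δ.symm y)
          rw [AffineEquiv.apply_symm_apply] at this
          rw [eq_sub_iff_add_eq]
          exact this.symm
        have h3 : δ.symm y = δ.linear.symm (y - δ 0) := by
          rw [← h2, LinearEquiv.symm_apply_apply]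
        rw [h3, map_sub, map_sub]
        have h4 : ℓ (δ.linear.symm y) = c + ℓ (δ.linear.symm (δ 0)) := hy
        rw [h4]
        ring
      rw [hfix _ h1, AffineEquiv.apply_symm_apply]
  · change δ.linear r = δ.linear (γ.linear (δ.linear.symm (δ.linear x))) - δ.linear x
    rw [LinearEquiv.symm_apply_apply, ← map_sub, hx]

theorem Dat.stable (D : Dat Γ H H₀) {δ : V ≃ᵃ[ℂ] V} (hδ : δ ∈ Γ) {u : V}
    (hu : u ∈ negPart Γ H) : δ.linear u ∈ negPart Γ H := by
  induction hu using Submodule.span_induction with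
  | mem r hr =>
    refine Submodule.subset_span ⟨root_image hδ hr.1, ?_⟩
    rw [D.inv δ hδ]
    exact hr.2
  | zero => rw [map_zero]; exact Submodule.zero_mem _
  | add x y _ _ hx hy => rw [map_add]; exact Submodule.add_mem _ hx hy
  | smul c x _ hx => rw [map_smul]; exact Submodule.smul_mem _ c hx

/-- The negative part is spanned by vectors of the lattice. -/
theorem Dat.rational (D : Dat Γ H H₀) {u : V} (hu : u ∈ negPart Γ H) :
    u ∈ Submodule.span ℝ {b | b ∈ latt Γ ∧ b ∈ negPart Γ H} := by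
  refine Submodule.closure_induction (p := fun u _ => u ∈ Submodule.span ℝ
    {b | b ∈ latt Γ ∧ b ∈ negPart Γ H}) (Submodule.zero_mem _) ?_ ?_ hu
  · intro x y _ _ hx hy
    exact Submodule.add_mem _ hx hy
  · rintro z r hr
    obtain ⟨⟨hr0, γ, hγ, x, hx⟩, hneg⟩ := hr
    have hrU : r ∈ negPart Γ H := Submodule.subset_span ⟨⟨hr0, γ, hγ, x, hx⟩, hneg⟩
    obtain ⟨m, hmx, hm⟩ := refl_shape hγ hr0 hx
    have hzr : z • r = γ.linear (z • x) - z • x := by
      rw [map_smul, ← smul_sub, ← hx]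
    rw [hzr]
    have hspan : z • x ∈ Submodule.span ℝ (latt Γ : Set V) := by
      rw [D.tq.span_top]
      trivial
    generalize z • x = y at hspan
    induction hspan using Submodule.span_induction with
    | mem b hb =>
      refine Submodule.subset_span ⟨?_, ?_⟩
      · exact (latt Γ).sub_mem (latt_inv γ hγ.1 hb) hb
      · rw [hm b, add_sub_cancel_left]
        exact Submodule.smul_mem _ _ hrU
    | zero => rw [map_zero, sub_zero]; exact Submodule.zero_mem _
    | add a b _ _ ha hb =>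
      rw [map_add, add_sub_add_comm]
      exact Submodule.add_mem _ ha hb
    | smul c a _ ha =>
      have h1 : γ.linear (c • a) - c • a = c • (γ.linear a - a) := by
        have h2 : c • a = (c : ℂ) • a := (Complex.coe_smul c a).symm
        have h3 : γ.linear (c • a) = (c : ℂ) • γ.linear a := by rw [h2, map_smul]
        rw [h3, Complex.coe_smul, smul_sub]
      rw [h1]
      exact Submodule.smul_mem _ c ha

end Pool.Agent.Q123.MF
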